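import Pool.Agent.H211.CH.Asm
import Pool.Agent.H331.CH211.CAN
import Pool.Agent.H967.CH211.RH
import Pool.Agent.H746.CH211.MUL
import Pool.Agent.H161.CH211.PUI
import Pool.Agent.H249.CH211.ROOTS
import Pool.Agent.H549.CH211.INV
import Pool.Agent.H264.CH211.ER
import Pool.Agent.H224.CH211.SYM
import Pool.Agent.H975.CH211.EL
import Pool.Agent.H154.CH211.C1
import Pool.Agent.H603.CH211.C2
import Pool.Agent.H102.CH211.C3
import Pool.Agent.H947.CH211.C4
import Pool.Agent.H322.CH211.C6
import Pool.Agent.H860.CH211.P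
import Pool.Agent.H341.CH211.IRR
import Pool.Agent.H400.CH211.FIB
import Pool.Agent.H245.CH211.A1
import Pool.Agent.H274.CH211.A1b
import Pool.Agent.H707.CH211.A2
import Pool.Agent.H10.CH211.A2b
import Pool.Agent.H747.CH211.A3
import Pool.Agent.H670.CH211.A4
import Pool.Agent.H937.CH211.END

/-!
# Chains of strict intertwining of polynomials (problem MP_1d703b_an)

Two intertwined polynomials of the same degree `d ≥ 2` over an algebraically closed field of characteristic zero
are always joined by a chain of strict intertwinings of length two. So the equivalence relation generated by strict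
intertwining is the intertwining relation.
-/

set_option autoImplicit false

open Polynomial

namespace Pool.Agent.Results.MP_1d703b_an.ChainsOfLengthTwo

universe u

section defs

variable {K : Type u} [Field K]

/-- The iterate `P^n` of a polynomial under composition. -/
noncomputable def iter (P : K[X]) (n : ℕ) : K[X] := P.comp^[n] X

/-- Semi-conjugacy `P ≥ Q`: there is a nonconstant polynomial `p` with `p ∘ P = Q ∘ p`. -/
def SemiConj (P Q : K[X]) : Prop := ∃ p : K[X], 0 < p.natDegree ∧ p.comp P = Q.comp p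

/-- Strict intertwining: some polynomial `R` has `R ≥ P` and `R ≥ Q` (its degree is then that of `P` and `Q`). -/
def StrictlyIntertwined (P Q : K[X]) : Prop := ∃ R : K[X], SemiConj R P ∧ SemiConj R Q

/-- Intertwining `P ≈ Q`: there are a polynomial `R` and an integer `n ≥ 1` with `R ≥ P^n` and `R ≥ Q^n`. -/
def Intertwined (P Q : K[X]) : Prop :=
  ∃ (R : K[X]) (n : ℕ), 1 ≤ n ∧ SemiConj R (iter P n) ∧ SemiConj R (iter Q n)

end defs

/-- **Chains of length two.** Let `K` be algebraically closed of characteristic zero and let `P ≈ Q` be polynomials of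
degree `d ≥ 2`. Then there are polynomials `S, φ₁, φ₂` of degree `d` with `φ₁ ≥ P`, `φ₁ ≥ S`, `φ₂ ≥ S`, `φ₂ ≥ Q`. So `P` and
`Q` are equivalent for the equivalence relation which strict intertwining generates on the polynomials of degree `d`. -/
theorem result (K : Type u) [Field K] [IsAlgClosed K] [CharZero K] (d : ℕ) (hd : 2 ≤ d)
    (P Q : K[X]) (hP : P.natDegree = d) (hQ : Q.natDegree = d) (h : Intertwined P Q) :
    (∃ S φ₁ φ₂ : K[X], S.natDegree = d ∧ φ₁.natDegree = d ∧ φ₂.natDegree = d ∧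
      SemiConj φ₁ P ∧ SemiConj φ₁ S ∧ SemiConj φ₂ S ∧ SemiConj φ₂ Q) ∧
    Relation.EqvGen
      (fun A B : {A : K[X] // A.natDegree = d} => StrictlyIntertwined A.1 B.1) ⟨P, hP⟩ ⟨Q, hQ⟩ := by
  have main : ∃ φ₁ S φ₂ : K[X], SemiConj φ₁ P ∧ SemiConj φ₁ S ∧ SemiConj φ₂ S ∧ SemiConj φ₂ Q := by
    obtain ⟨R, n, hn, h1, h2⟩ := h
    have hCAN : H211.CH.S_CAN K := H331.CH211.t_CAN
    have hRH : H211.CH.S_RH K := H967.CH211.t_RH
    have hMUL : H211.CH.S_MUL K := H746.CH211.t_MUL
    have hPUI : H211.CH.S_PUI K := H161.CH211.t_PUI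
    have hROOTS : H211.CH.S_ROOTS K := H249.CH211.t_ROOTS
    have hINV : H211.CH.S_INV K := H549.CH211.t_INV
    have hER : H211.CH.S_ER K := H264.CH211.t_ER hPUI hROOTS hINV
    have hSYM : H211.CH.S_SYM K := H224.CH211.t_SYM K
    have hEL : H211.CH.S_EL K := H975.CH211.t_EL hPUI hROOTS hINV hER hSYM
    have hC1 : H211.CH.S_C1 K := H154.CH211.t_C1
    have hC2 : H211.CH.S_C2 K := H603.CH211.t_C2
    have hC3 : H211.CH.S_C3 K := H102.CH211.t_C3
    have hC4 : H211.CH.S_C4 K := H947.CH211.t_C4 hC1 hC3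
    have hC6 : H211.CH.S_C6 K := H322.CH211.t_C6 hC1
    have hPow : H211.CH.S_P K := H860.CH211.t_P hRH
    have hFIB : H211.CH.S_FIB K := H400.CH211.t_FIB H341.CH211.t_IRR
    have hA1 : H211.CH.S_A1 K := H245.CH211.t_A1 hFIB hRH hMUL
    have hA2 : H211.CH.S_A2 K := H707.CH211.t_A2 hRH hMUL
    have hA3 : H211.CH.S_A3 K := H747.CH211.t_A3 hCAN hEL
    have hA4 : H211.CH.S_A4 K :=
      H670.CH211.t_A4 hCAN hER hA1 H274.CH211.t_A1b hA2 H10.CH211.t_A2b hA3 hC4
    have hEND : H211.CH.S_END K := H937.CH211.t_END hCAN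
    exact H211.CH.chain_two hC1 hC2 hC3 hC4 hC6 hPow hA4 hEND P Q R n (by omega) (by omega) hn h1 h2
  obtain ⟨φ₁, S, φ₂, a, b, c, e⟩ := main
  have h1 : φ₁.natDegree = d := (H211.CH.semi_natDegree a).trans hP
  have hS : S.natDegree = d := (H211.CH.semi_natDegree b).symm.trans h1
  have h2 : φ₂.natDegree = d := (H211.CH.semi_natDegree c).trans hS
  refine ⟨⟨S, φ₁, φ₂, hS, h1, h2, a, b, c, e⟩, ?_⟩
  exact Relation.EqvGen.trans _ ⟨S, hS⟩ _ (Relation.EqvGen.rel _ _ ⟨φ₁, a, b⟩)
    (Relation.EqvGen.rel _ _ ⟨φ₂, c, e⟩)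

end Pool.Agent.Results.MP_1d703b_an.ChainsOfLengthTwo
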